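import Pool.Agent.Helper32.Pierce.NearHelly

/-!
# Three arcs of the circle
-/

namespace Pool.Agent.Helper32.Pierce

open Finset Real Filter Topology

lemma sin_nonneg_iff_of_Ico {t : ℝ} (h0 : 0 ≤ t) (h1 : t < 2 * π) : 0 ≤ sin t ↔ t ≤ π := by
  constructor
  · intro h
    by_contra hc
    push Not at hc
    have : sin t < 0 := by
      have h2 : sin (t - 2 * π) < 0 := sin_neg_of_neg_of_neg_pi_lt (by linarith) (by linarith)
      rwa [sin_sub_two_pi] at h2
    linarith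
  · intro h
    exact sin_nonneg_of_nonneg_of_le_pi h0 h

open Classical in
theorem arcs_ref {Z : Type} [Fintype Z] (t : Z → ℝ) (ht0 : ∀ k, 0 ≤ t k)
    (ht1 : ∀ k, t k < 2 * π) (ν : Z → ℝ) (hν : ∀ k, 0 ≤ ν k) (c : ℝ) (hc : 0 < c)
    (hhalf : ∀ θ, 3 * c ≤ ∑ k with 0 ≤ sin (t k - θ), ν k)
    (b : ℝ) (hb0 : 0 ≤ b) (hbπ : b < π) (hb : c ≤ ∑ k with t k ≤ b, ν k)
    (hO : ∑ k with π < t k ∧ t k < π + b, ν k ≤ c) :
    ∃ W : Fin 3 → Finset Z, (∀ i, c ≤ ∑ k ∈ W i, ν k) ∧
      ∀ θ, ∃ i, ∀ k ∈ W i, 0 ≤ sin (t k - θ) := by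
  set Y : Finset Z := univ.filter (fun k => t k ≤ π) with hY
  have hYmass : c ≤ ∑ k ∈ Y, ν k := by
    have h1 := hhalf 0
    have h2 : (univ.filter (fun k => 0 ≤ sin (t k - 0))) = Y := by
      ext k
      simp only [mem_filter, mem_univ, true_and, hY, sub_zero]
      exact sin_nonneg_iff_of_Ico (ht0 k) (ht1 k)
    rw [h2] at h1
    linarith
  obtain ⟨k₀, hk₀, hq1, hq2⟩ := exists_quantile' Y ν t c hc hYmass
  set θ₀ := t k₀ with hθ₀
  have hθ0 : 0 ≤ θ₀ := ht0 k₀
  have hθπ : θ₀ ≤ π := (mem_filter.1 hk₀).2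
  set W3 : Finset Z := univ.filter
    (fun k => (π + b ≤ t k ∧ t k ≤ π + θ₀) ∨ t k + 2 * π ≤ π + θ₀) with hW3
  have hev : ∀ᶠ η in 𝓝[>] (0 : ℝ), ∀ k, 0 ≤ sin (t k - (θ₀ + η)) →
      (θ₀ < t k ∧ t k ≤ θ₀ + π) ∨ t k + 2 * π ≤ θ₀ + π := by
    rw [eventually_all]
    intro k
    by_cases hk : (θ₀ < t k ∧ t k ≤ θ₀ + π) ∨ t k + 2 * π ≤ θ₀ + π
    · exact Eventually.of_forall fun _ _ => hk
    · push Not at hk
      obtain ⟨hk1, hk2⟩ := hk
      by_cases hlt : t k ≤ θ₀
      · have hpos : 0 < π + t k - θ₀ := by linarith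
        filter_upwards [Ioo_mem_nhdsGT hpos] with η hη hs
        have : sin (t k - (θ₀ + η)) < 0 :=
          sin_neg_of_neg_of_neg_pi_lt (by linarith [hη.1]) (by linarith [hη.2])
        linarith
      · push Not at hlt
        have h3 := hk1 hlt
        have hpos : 0 < t k - θ₀ - π := by linarith
        filter_upwards [Ioo_mem_nhdsGT hpos] with η hη hs
        have : sin (t k - (θ₀ + η) - 2 * π) < 0 :=
          sin_neg_of_neg_of_neg_pi_lt (by linarith [hη.1, ht1 k]) (by linarith [hη.2])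
        rw [sin_sub_two_pi] at this
        linarith
  obtain ⟨η, hη⟩ := hev.exists
  have hW3mass : c ≤ ∑ k ∈ W3, ν k := by
    have h1 := hhalf (θ₀ + η)
    have hsub : (univ.filter (fun k => 0 ≤ sin (t k - (θ₀ + η)))) ⊆
        (Y.filter (fun k => t k₀ < t k) ∪ univ.filter (fun k => π < t k ∧ t k < π + b)) ∪ W3 := by
      intro k hk
      have hk' := hη k (mem_filter.1 hk).2
      simp only [mem_union, mem_filter, mem_univ, true_and, hY, hW3]
      rcases hk' with ⟨h2, h3⟩ | h2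
      · by_cases h4 : t k ≤ π
        · exact Or.inl (Or.inl ⟨h4, h2⟩)
        · push Not at h4
          by_cases h5 : t k < π + b
          · exact Or.inl (Or.inr ⟨h4, h5⟩)
          · push Not at h5
            exact Or.inr (Or.inl ⟨h5, by linarith⟩)
      · exact Or.inr (Or.inr (by linarith))
    have hu : ∀ s s' : Finset Z, ∑ i ∈ s ∪ s', ν i ≤ ∑ i ∈ s, ν i + ∑ i ∈ s', ν i := by
      intro s s'
      rw [← Finset.sum_union_inter]
      have : 0 ≤ ∑ i ∈ s ∩ s', ν i := Finset.sum_nonneg fun i _ => hν i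
      linarith
    have h2 := Finset.sum_le_sum_of_subset_of_nonneg hsub (f := ν) (fun i _ _ => hν i)
    have h3 := hu (Y.filter (fun k => t k₀ < t k) ∪
      univ.filter (fun k => π < t k ∧ t k < π + b)) W3
    have h4 := hu (Y.filter (fun k => t k₀ < t k)) (univ.filter (fun k => π < t k ∧ t k < π + b))
    linarith
  refine ⟨![univ.filter (fun k => t k ≤ b), Y.filter (fun k => t k₀ ≤ t k), W3], ?_, ?_⟩
  · intro i
    fin_cases i
    · exact hb
    · exact hq2
    · exact hW3mass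
  · intro θ
    -- reduce `θ` to `[0, 2π)`
    obtain ⟨θ', hθ'0, hθ'1, hθ'⟩ : ∃ θ' : ℝ, 0 ≤ θ' ∧ θ' < 2 * π ∧
        ∀ x, sin (x - θ) = sin (x - θ') := by
      refine ⟨toIcoMod two_pi_pos 0 θ, ?_, ?_, ?_⟩
      · exact (toIcoMod_mem_Ico two_pi_pos 0 θ).1
      · simpa using (toIcoMod_mem_Ico two_pi_pos 0 θ).2
      · intro x
        have h1 : θ = toIcoMod two_pi_pos 0 θ + (toIcoDiv two_pi_pos 0 θ) * (2 * π) := by
          have := toIcoMod_add_toIcoDiv_zsmul two_pi_pos (0 : ℝ) θ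
          rw [zsmul_eq_mul] at this
          exact this.symm
        have h2 : x - θ = x - toIcoMod two_pi_pos 0 θ - (toIcoDiv two_pi_pos 0 θ) * (2 * π) := by
          linarith
        rw [h2, sin_sub_int_mul_two_pi]
    have hnn : ∀ x : ℝ, 0 ≤ x → x ≤ π → 0 ≤ sin x := fun x => sin_nonneg_of_nonneg_of_le_pi
    rcases le_total θ' θ₀ with h1 | h1
    · refine ⟨1, ?_⟩
      intro k hk
      have hk' : k ∈ Y.filter (fun k => t k₀ ≤ t k) := hk
      simp only [mem_filter, mem_univ, true_and, hY] at hk'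
      rw [hθ']
      exact hnn _ (by linarith) (by linarith)
    · rcases le_total θ' (π + b) with h2 | h2
      · refine ⟨2, ?_⟩
        intro k hk
        have hk' : k ∈ W3 := hk
        simp only [mem_filter, mem_univ, true_and, hW3] at hk'
        rw [hθ']
        rcases hk' with ⟨h3, h4⟩ | h3
        · exact hnn _ (by linarith) (by linarith)
        · rw [← sin_add_two_pi]
          exact hnn _ (by linarith [ht0 k]) (by linarith)
      · refine ⟨0, ?_⟩
        intro k hk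
        have hk' : k ∈ univ.filter (fun k => t k ≤ b) := hk
        simp only [mem_filter, mem_univ, true_and] at hk'
        rw [hθ', ← sin_add_two_pi]
        exact hnn _ (by linarith [ht0 k]) (by linarith)

open Classical in
theorem arcs {Z : Type} [Fintype Z] (t : Z → ℝ) (ν : Z → ℝ) (hν : ∀ k, 0 ≤ ν k) (c : ℝ)
    (hc : 0 < c) (hhalf : ∀ θ, 3 * c ≤ ∑ k with 0 ≤ sin (t k - θ), ν k) :
    ∃ W : Fin 3 → Finset Z, (∀ i, c ≤ ∑ k ∈ W i, ν k) ∧
      ∀ θ, ∃ i, ∀ k ∈ W i, 0 ≤ sin (t k - θ) := by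
  set d : Z → Z → ℝ := fun i k => toIcoMod two_pi_pos 0 (t k - t i) with hd
  have hd0 : ∀ i k, 0 ≤ d i k := fun i k => (toIcoMod_mem_Ico two_pi_pos 0 (t k - t i)).1
  have hd1 : ∀ i k, d i k < 2 * π := fun i k => by
    simpa using (toIcoMod_mem_Ico two_pi_pos 0 (t k - t i)).2
  have hsin : ∀ i k θ, sin (t k - θ) = sin (d i k - (θ - t i)) := by
    intro i k θ
    have h1 : t k - t i = d i k + (toIcoDiv two_pi_pos 0 (t k - t i)) * (2 * π) := by
      have := toIcoMod_add_toIcoDiv_zsmul two_pi_pos (0 : ℝ) (t k - t i)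
      rw [zsmul_eq_mul] at this
      exact this.symm
    have h2 : t k - θ = d i k - (θ - t i) + (toIcoDiv two_pi_pos 0 (t k - t i)) * (2 * π) := by
      linarith
    rw [h2, sin_add_int_mul_two_pi]
  have hdd : ∀ i k k', d i k ≤ d i k' → d k k' = d i k' - d i k := by
    intro i k k' hle
    have h1 : t k' - t k = (d i k' - d i k) +
        ((toIcoDiv two_pi_pos 0 (t k' - t i)) - (toIcoDiv two_pi_pos 0 (t k - t i)) : ℤ) •
          (2 * π) := by
      have e1 := toIcoMod_add_toIcoDiv_zsmul two_pi_pos (0 : ℝ) (t k' - t i)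
      have e2 := toIcoMod_add_toIcoDiv_zsmul two_pi_pos (0 : ℝ) (t k - t i)
      rw [sub_zsmul]
      simp only [hd]
      linarith
    have h2 : d k k' = toIcoMod two_pi_pos 0 (t k' - t k) := rfl
    rw [h2, h1, toIcoMod_add_zsmul, toIcoMod_eq_self]
    constructor
    · linarith
    · have := hd1 i k'
      have := hd0 i k
      rw [zero_add]
      linarith
  set Qs : Finset (Z × Z) := univ.filter (fun x => c ≤ ∑ k with d x.1 k ≤ d x.1 x.2, ν k) with hQ
  have hhull : ∀ (i : Z) (A : Finset Z), c ≤ ∑ k ∈ A, ν k →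
      ∃ k₁ ∈ A, ∃ k₂ ∈ A, (k₁, k₂) ∈ Qs ∧ d k₁ k₂ = d i k₂ - d i k₁ := by
    intro i A hA
    have hne : A.Nonempty := by
      by_contra h
      rw [Finset.not_nonempty_iff_eq_empty] at h
      rw [h, Finset.sum_empty] at hA
      linarith
    obtain ⟨k₁, hk₁, hk₁'⟩ := A.exists_min_image (d i) hne
    obtain ⟨k₂, hk₂, hk₂'⟩ := A.exists_max_image (d i) hne
    refine ⟨k₁, hk₁, k₂, hk₂, ?_, hdd i k₁ k₂ (hk₁' k₂ hk₂)⟩
    rw [hQ, mem_filter]
    refine ⟨mem_univ _, hA.trans ?_⟩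
    refine Finset.sum_le_sum_of_subset_of_nonneg ?_ fun k _ _ => hν k
    intro k hk
    rw [mem_filter]
    refine ⟨mem_univ _, ?_⟩
    simp only
    rw [hdd i k₁ k₂ (hk₁' k₂ hk₂), hdd i k₁ k (hk₁' k hk)]
    linarith [hk₂' k hk]
  have hQne : Qs.Nonempty := by
    have h1 := hhalf 0
    have h2 : (univ.filter (fun k => 0 ≤ sin (t k - 0))).Nonempty := by
      by_contra h
      rw [Finset.not_nonempty_iff_eq_empty] at h
      rw [h, Finset.sum_empty] at h1
      linarith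
    obtain ⟨i, _⟩ := h2
    obtain ⟨k₁, _, k₂, _, h3, _⟩ := hhull i _ (le_trans (by linarith) h1)
    exact ⟨_, h3⟩
  obtain ⟨⟨i, j⟩, hij, hmin⟩ := Qs.exists_min_image (fun x => d x.1 x.2) hQne
  have hmin' : ∀ A : Finset Z, c ≤ ∑ k ∈ A, ν k → ∃ k₁ ∈ A, ∃ k₂ ∈ A,
      d i j ≤ d i k₂ - d i k₁ := by
    intro A hA
    obtain ⟨k₁, hk₁, k₂, hk₂, h1, h2⟩ := hhull i A hA
    refine ⟨k₁, hk₁, k₂, hk₂, ?_⟩
    rw [← h2]
    exact hmin _ h1
  have hhalf' : ∀ θ, 3 * c ≤ ∑ k with 0 ≤ sin (d i k - θ), ν k := by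
    intro θ
    have h1 := hhalf (θ + t i)
    simp only [hsin i, add_sub_cancel_right] at h1
    exact h1
  have hbπ : d i j < π := by
    have h1 := hhalf' 0
    have h2 : (univ.filter (fun k => 0 ≤ sin (d i k - 0))) =
        univ.filter (fun k => d i k < π) ∪ univ.filter (fun k => d i k = π) := by
      ext k
      simp only [mem_union, mem_filter, mem_univ, true_and, sub_zero]
      rw [sin_nonneg_iff_of_Ico (hd0 i k) (hd1 i k), le_iff_lt_or_eq]
    rw [h2] at h1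
    have h3 : ∑ k ∈ univ.filter (fun k => d i k < π) ∪ univ.filter (fun k => d i k = π), ν k ≤
        ∑ k with d i k < π, ν k + ∑ k with d i k = π, ν k := by
      rw [← Finset.sum_union_inter]
      have : 0 ≤ ∑ i ∈ univ.filter (fun k => d i k < π) ∩ univ.filter (fun k => d i k = π),
        ν i := Finset.sum_nonneg fun i _ => hν i
      linarith
    by_cases h4 : c ≤ ∑ k with d i k < π, ν k
    · obtain ⟨k₁, hk₁, k₂, hk₂, h5⟩ := hmin' _ h4
      have h6 := (mem_filter.1 hk₂).2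
      have h7 := hd0 i k₁
      linarith
    · push Not at h4
      obtain ⟨k₁, hk₁, k₂, hk₂, h5⟩ := hmin' (univ.filter (fun k => d i k = π)) (by linarith)
      have h6 := (mem_filter.1 hk₂).2
      have h7 := (mem_filter.1 hk₁).2
      have := pi_pos
      linarith
  obtain ⟨W, hW1, hW2⟩ := arcs_ref (d i) (hd0 i) (hd1 i) ν hν c hc hhalf' (d i j) (hd0 i j) hbπ
    (mem_filter.1 hij).2 (by
      by_contra hcon
      push Not at hcon
      obtain ⟨k₁, hk₁, k₂, hk₂, h5⟩ := hmin' _ hcon.le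
      have h6 := (mem_filter.1 hk₂).2
      have h7 := (mem_filter.1 hk₁).2
      linarith [h6.2, h7.1])
  refine ⟨W, hW1, fun θ => ?_⟩
  obtain ⟨l, hl⟩ := hW2 (θ - t i)
  refine ⟨l, fun k hk => ?_⟩
  rw [hsin i]
  exact hl k hk

end Pool.Agent.Helper32.Pierce
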