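import Pool.Agent.Helper32.Pierce.NearHelly

/-!
# From local 2-piercing to pairs hitting almost everything
-/

namespace Pool.Agent.Helper32.Pierce

open Finset Classical

section

variable {ι : Type} [Fintype ι] (C : ι → Set ℂ) (w : ι → ℝ)

/-- weight of the members missing `I` -/
noncomputable def al (I : Set ℂ) : ℝ := ∑ i, if (C i ∩ I).Nonempty then 0 else w i

/-- weight of the pairs of members having no common point in `I` -/
noncomputable def be (I : Set ℂ) : ℝ :=
  ∑ i, ∑ j, if (C i ∩ C j ∩ I).Nonempty then 0 else w i * w j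

/-- the potential -/
noncomputable def pot (I : Set ℂ) : ℝ := al C w I + be C w I

variable {C w}

lemma al_mono (hw : ∀ i, 0 ≤ w i) {I J : Set ℂ} (h : J ⊆ I) : al C w I ≤ al C w J := by
  refine Finset.sum_le_sum fun i _ => ?_
  by_cases h1 : (C i ∩ J).Nonempty
  · rw [if_pos h1, if_pos (h1.mono (Set.inter_subset_inter_right _ h))]
  · rw [if_neg h1]
    split_ifs
    · exact hw i
    · exact le_rfl

lemma be_mono (hw : ∀ i, 0 ≤ w i) {I J : Set ℂ} (h : J ⊆ I) : be C w I ≤ be C w J := by
  refine Finset.sum_le_sum fun i _ => Finset.sum_le_sum fun j _ => ?_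
  by_cases h1 : (C i ∩ C j ∩ J).Nonempty
  · rw [if_pos h1, if_pos (h1.mono (Set.inter_subset_inter_right _ h))]
  · rw [if_neg h1]
    split_ifs
    · exact mul_nonneg (hw i) (hw j)
    · exact le_rfl

lemma pot_le_two (hw : ∀ i, 0 ≤ w i) (hw1 : ∑ i, w i = 1) (I : Set ℂ) : pot C w I ≤ 2 := by
  have h1 : al C w I ≤ 1 := by
    rw [← hw1]
    refine Finset.sum_le_sum fun i _ => ?_
    split_ifs
    · exact hw i
    · exact le_rfl
  have h2 : be C w I ≤ 1 := by
    have : (1 : ℝ) = ∑ i, ∑ j, w i * w j := by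
      rw [← Finset.sum_mul_sum, hw1, one_mul]
    rw [this]
    refine Finset.sum_le_sum fun i _ => Finset.sum_le_sum fun j _ => ?_
    split_ifs
    · exact mul_nonneg (hw i) (hw j)
    · exact le_rfl
  rw [pot]
  linarith

/-- If many members hardly increase the potential then a point of almost all of them exists. -/
lemma good_state (hw : ∀ i, 0 ≤ w i) (hw1 : ∑ i, w i = 1) (hconv : ∀ i, Convex ℝ (C i))
    (hcomp : ∀ i, IsCompact (C i)) {ε : ℝ} (hε : 0 < ε) {I : Set ℂ} (hI : Convex ℝ I)
    (hIc : IsClosed I) (X : Finset ι)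
    (hX : ∀ c ∈ X, (C c ∩ I).Nonempty ∧ pot C w (C c ∩ I) < pot C w I + ε ^ 2 / 128) :
    ∃ p : ℂ, ∑ i ∈ X with p ∉ C i, w i ≤ ε / 2 := by
  have hδ1 : ∀ c ∈ X, al C w (C c ∩ I) < al C w I + ε ^ 2 / 128 := by
    intro c hc
    have h1 := (hX c hc).2
    have h2 := be_mono (C := C) hw (Set.inter_subset_right (s := C c) (t := I))
    rw [pot, pot] at h1
    linarith
  have hδ2 : ∀ c ∈ X, be C w (C c ∩ I) < be C w I + ε ^ 2 / 128 := by
    intro c hc
    have h1 := (hX c hc).2
    have h2 := al_mono (C := C) hw (Set.inter_subset_right (s := C c) (t := I))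
    rw [pot, pot] at h1
    linarith
  obtain ⟨p, hp⟩ := nearHelly (fun i => C i ∩ I) X w hw (fun i _ => (hconv i).inter hI)
    (fun i _ => (hcomp i).inter_right hIc) (ε / 2) (by positivity) (by
      intro c hc
      have key : ∑ j ∈ X, ∑ k ∈ X, (if ((C c ∩ I) ∩ (C j ∩ I) ∩ (C k ∩ I)).Nonempty then 0
          else w j * w k) ≤ (be C w (C c ∩ I) - be C w I) +
          ∑ j ∈ X, w j * (al C w (C j ∩ I) - al C w I) := by
        have e1 : be C w (C c ∩ I) - be C w I = ∑ j, ∑ k,
            ((if (C j ∩ C k ∩ (C c ∩ I)).Nonempty then 0 else w j * w k) -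
              (if (C j ∩ C k ∩ I).Nonempty then 0 else w j * w k)) := by
          simp only [be, Finset.sum_sub_distrib]
        have hpos1 : ∀ j k, 0 ≤ ((if (C j ∩ C k ∩ (C c ∩ I)).Nonempty then 0 else w j * w k) -
              (if (C j ∩ C k ∩ I).Nonempty then 0 else w j * w k)) := by
          intro j k
          by_cases h1 : (C j ∩ C k ∩ (C c ∩ I)).Nonempty
          · rw [if_pos h1, if_pos (h1.mono (Set.inter_subset_inter_right _
              Set.inter_subset_right))]
            simp
          · rw [if_neg h1]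
            have := mul_nonneg (hw j) (hw k)
            split_ifs <;> linarith
        have e2 : ∀ j, al C w (C j ∩ I) - al C w I = ∑ k,
            ((if (C k ∩ (C j ∩ I)).Nonempty then 0 else w k) -
              (if (C k ∩ I).Nonempty then 0 else w k)) := by
          intro j
          simp only [al, Finset.sum_sub_distrib]
        have hpos2 : ∀ j k, 0 ≤ ((if (C k ∩ (C j ∩ I)).Nonempty then 0 else w k) -
              (if (C k ∩ I).Nonempty then 0 else w k)) := by
          intro j k
          by_cases h1 : (C k ∩ (C j ∩ I)).Nonempty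
          · rw [if_pos h1, if_pos (h1.mono (Set.inter_subset_inter_right _
              Set.inter_subset_right))]
            simp
          · rw [if_neg h1]
            have := hw k
            split_ifs <;> linarith
        have h3 : ∑ j ∈ X, ∑ k ∈ X,
            ((if (C j ∩ C k ∩ (C c ∩ I)).Nonempty then 0 else w j * w k) -
              (if (C j ∩ C k ∩ I).Nonempty then 0 else w j * w k)) ≤
            be C w (C c ∩ I) - be C w I := by
          rw [e1]
          refine (Finset.sum_le_sum fun j _ => Finset.sum_le_sum_of_subset_of_nonneg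
            (Finset.subset_univ X) (fun k _ _ => hpos1 j k)).trans ?_
          exact Finset.sum_le_sum_of_subset_of_nonneg (Finset.subset_univ X)
            (fun j _ _ => Finset.sum_nonneg fun k _ => hpos1 j k)
        have h4 : ∑ j ∈ X, w j * ∑ k ∈ X,
            ((if (C k ∩ (C j ∩ I)).Nonempty then 0 else w k) -
              (if (C k ∩ I).Nonempty then 0 else w k)) ≤
            ∑ j ∈ X, w j * (al C w (C j ∩ I) - al C w I) := by
          refine Finset.sum_le_sum fun j _ => mul_le_mul_of_nonneg_left ?_ (hw j)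
          rw [e2]
          exact Finset.sum_le_sum_of_subset_of_nonneg (Finset.subset_univ X)
            (fun k _ _ => hpos2 j k)
        refine le_trans ?_ (add_le_add h3 h4)
        rw [← Finset.sum_add_distrib]
        refine Finset.sum_le_sum fun j hj => ?_
        rw [Finset.mul_sum, ← Finset.sum_add_distrib]
        refine Finset.sum_le_sum fun k hk => ?_
        have hkI := (hX k hk).1
        have eq1 : (C c ∩ I) ∩ (C j ∩ I) ∩ (C k ∩ I) = C j ∩ C k ∩ (C c ∩ I) := by
          ext z
          simp only [Set.mem_inter_iff]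
          tauto
        have eq2 : C k ∩ (C j ∩ I) = C j ∩ C k ∩ I := by
          ext z
          simp only [Set.mem_inter_iff]
          tauto
        rw [eq1, eq2, if_pos hkI]
        have hjk := mul_nonneg (hw j) (hw k)
        by_cases ha : (C j ∩ C k ∩ (C c ∩ I)).Nonempty
        · have hb : (C j ∩ C k ∩ I).Nonempty :=
            ha.mono (Set.inter_subset_inter_right _ Set.inter_subset_right)
          rw [if_pos ha, if_pos hb, if_pos hb]
          simp
        · rw [if_neg ha]
          by_cases hb : (C j ∩ C k ∩ I).Nonempty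
          · rw [if_pos hb, if_pos hb]
            simp
          · rw [if_neg hb, if_neg hb]
            simp
      refine lt_of_le_of_lt key ?_
      have h5 : ∑ j ∈ X, w j * (al C w (C j ∩ I) - al C w I) ≤ ε ^ 2 / 128 := by
        calc ∑ j ∈ X, w j * (al C w (C j ∩ I) - al C w I)
            ≤ ∑ j ∈ X, w j * (ε ^ 2 / 128) := by
              refine Finset.sum_le_sum fun j hj => mul_le_mul_of_nonneg_left ?_ (hw j)
              have := hδ1 j hj
              linarith
          _ ≤ ∑ j, w j * (ε ^ 2 / 128) :=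
              Finset.sum_le_sum_of_subset_of_nonneg (Finset.subset_univ X)
                (fun j _ _ => mul_nonneg (hw j) (by positivity))
          _ = ε ^ 2 / 128 := by rw [← Finset.sum_mul, hw1, one_mul]
      have h6 := hδ2 c hc
      have : (ε / 2) ^ 2 / 16 = ε ^ 2 / 128 + ε ^ 2 / 128 := by ring
      rw [this]
      linarith)
  refine ⟨p, le_trans ?_ hp⟩
  refine Finset.sum_le_sum_of_subset_of_nonneg ?_ fun i _ _ => hw i
  intro i hi
  simp only [Finset.mem_filter] at hi ⊢
  exact ⟨hi.1, fun h => hi.2 h.1⟩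

end

/-- Walking down the binary tree. -/
lemma branch {ι : Type} [Fintype ι] {C : ι → Set ℂ} {w : ι → ℝ} (hw : ∀ i, 0 ≤ w i)
    (hw1 : ∑ i, w i = 1) (hconv : ∀ i, Convex ℝ (C i))
    (hcomp : ∀ i, IsCompact (C i)) {δ : ℝ}
    (hviol : ∀ I J : Set ℂ, Convex ℝ I → IsClosed I → Convex ℝ J → IsClosed J →
      ∃ c, ((C c ∩ I).Nonempty → pot C w I + δ ≤ pot C w (C c ∩ I)) ∧
        ((C c ∩ J).Nonempty → pot C w J + δ ≤ pot C w (C c ∩ J))) (n : ℕ) :
    ∀ I J : Set ℂ, Convex ℝ I → IsClosed I → Convex ℝ J → IsClosed J →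
      ∃ L : Finset ι, L.card + 1 ≤ 2 ^ n ∧ ∀ p q, p ∈ I → q ∈ J →
        (∀ c ∈ L, p ∈ C c ∨ q ∈ C c) → pot C w I + pot C w J + n * δ ≤ 4 := by
  induction n with
  | zero =>
    intro I J _ _ _ _
    refine ⟨∅, by simp, ?_⟩
    intro p q _ _ _
    have h1 := pot_le_two (C := C) hw hw1 I
    have h2 := pot_le_two (C := C) hw hw1 J
    simp only [CharP.cast_eq_zero, zero_mul, add_zero]
    linarith
  | succ n ih =>
    intro I J hI hIc hJ hJc
    obtain ⟨c, hc1, hc2⟩ := hviol I J hI hIc hJ hJc
    obtain ⟨L1, hL1, hL1'⟩ := ih (C c ∩ I) J ((hconv c).inter hI)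
      ((hcomp c).isClosed.inter hIc) hJ hJc
    obtain ⟨L2, hL2, hL2'⟩ := ih I (C c ∩ J) hI hIc ((hconv c).inter hJ)
      ((hcomp c).isClosed.inter hJc)
    refine ⟨insert c (L1 ∪ L2), ?_, ?_⟩
    · have h1 := Finset.card_insert_le c (L1 ∪ L2)
      have h2 := Finset.card_union_le L1 L2
      rw [pow_succ]
      omega
    · intro p q hp hq hL
      have hL1sub : ∀ c' ∈ L1, p ∈ C c' ∨ q ∈ C c' := fun c' hc' =>
        hL c' (Finset.mem_insert_of_mem (Finset.mem_union_left _ hc'))
      have hL2sub : ∀ c' ∈ L2, p ∈ C c' ∨ q ∈ C c' := fun c' hc' =>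
        hL c' (Finset.mem_insert_of_mem (Finset.mem_union_right _ hc'))
      push_cast
      rcases hL c (Finset.mem_insert_self _ _) with h | h
      · have h3 := hL1' p q ⟨h, hp⟩ hq hL1sub
        have h4 := hc1 ⟨p, h, hp⟩
        linarith
      · have h3 := hL2' p q hp ⟨h, hq⟩ hL2sub
        have h4 := hc2 ⟨q, h, hq⟩
        linarith

/-- **Lemma A**: for every weight some pair of points hits almost everything. -/
theorem exists_pair (ε : ℝ) (hε : 0 < ε) : ∃ k₀ : ℕ, ∀ (ι : Type) [Fintype ι] (C : ι → Set ℂ),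
    (∀ i, Convex ℝ (C i)) → (∀ i, IsCompact (C i)) →
    (∀ L : Finset ι, L.card ≤ k₀ → ∃ p q : ℂ, ∀ c ∈ L, p ∈ C c ∨ q ∈ C c) →
    ∀ w : ι → ℝ, (∀ i, 0 ≤ w i) → ∑ i, w i = 1 →
      ∃ p q : ℂ, ∑ i with p ∉ C i ∧ q ∉ C i, w i ≤ ε := by
  obtain ⟨n, hn⟩ := exists_nat_gt (4 / (ε ^ 2 / 128))
  refine ⟨2 ^ n, ?_⟩
  intro ι _ C hconv hcomp hloc w hw hw1
  by_contra hcon
  push Not at hcon
  have hviol : ∀ I J : Set ℂ, Convex ℝ I → IsClosed I → Convex ℝ J → IsClosed J →
      ∃ c, ((C c ∩ I).Nonempty → pot C w I + ε ^ 2 / 128 ≤ pot C w (C c ∩ I)) ∧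
        ((C c ∩ J).Nonempty → pot C w J + ε ^ 2 / 128 ≤ pot C w (C c ∩ J)) := by
    intro I J hI hIc hJ hJc
    by_contra hno
    push Not at hno
    set X := Finset.univ.filter (fun c => (C c ∩ I).Nonempty ∧
      pot C w (C c ∩ I) < pot C w I + ε ^ 2 / 128) with hX
    set Y := Finset.univ.filter (fun c => (C c ∩ J).Nonempty ∧
      pot C w (C c ∩ J) < pot C w J + ε ^ 2 / 128) with hY
    obtain ⟨p, hp⟩ := good_state hw hw1 hconv hcomp hε hI hIc X
      (fun c hc => (Finset.mem_filter.1 hc).2)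
    obtain ⟨q, hq⟩ := good_state hw hw1 hconv hcomp hε hJ hJc Y
      (fun c hc => (Finset.mem_filter.1 hc).2)
    have h1 := hcon p q
    have h2 : Finset.univ.filter (fun i => p ∉ C i ∧ q ∉ C i) ⊆
        X.filter (fun i => p ∉ C i) ∪ Y.filter (fun i => q ∉ C i) := by
      intro i hi
      rw [Finset.mem_filter] at hi
      simp only [Finset.mem_union, Finset.mem_filter, hX, hY, Finset.mem_univ, true_and]
      by_cases hiX : (C i ∩ I).Nonempty ∧ pot C w (C i ∩ I) < pot C w I + ε ^ 2 / 128
      · exact Or.inl ⟨hiX, hi.2.1⟩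
      · right
        refine ⟨?_, hi.2.2⟩
        refine hno i ?_
        intro hne
        by_contra hlt
        push Not at hlt
        exact hiX ⟨hne, hlt⟩
    have h3 : ∑ i with p ∉ C i ∧ q ∉ C i, w i ≤
        ∑ i ∈ X.filter (fun i => p ∉ C i), w i + ∑ i ∈ Y.filter (fun i => q ∉ C i), w i := by
      refine (Finset.sum_le_sum_of_subset_of_nonneg h2 fun i _ _ => hw i).trans ?_
      rw [← Finset.sum_union_inter]
      have : 0 ≤ ∑ i ∈ X.filter (fun i => p ∉ C i) ∩ Y.filter (fun i => q ∉ C i), w i :=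
        Finset.sum_nonneg fun i _ => hw i
      linarith
    linarith
  obtain ⟨L, hL, hL'⟩ := branch hw hw1 hconv hcomp hviol n Set.univ Set.univ convex_univ
    isClosed_univ convex_univ isClosed_univ
  obtain ⟨p, q, hpq⟩ := hloc L (by omega)
  have h1 := hL' p q (Set.mem_univ _) (Set.mem_univ _) hpq
  have h2 : 0 ≤ pot C w Set.univ := by
    rw [pot]
    refine add_nonneg (Finset.sum_nonneg fun i _ => ?_)
      (Finset.sum_nonneg fun i _ => Finset.sum_nonneg fun j _ => ?_)
    · split_ifs
      · exact le_rfl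
      · exact hw i
    · split_ifs
      · exact le_rfl
      · exact mul_nonneg (hw i) (hw j)
  rw [div_lt_iff₀ (by positivity)] at hn
  linarith

end Pool.Agent.Helper32.Pierce
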