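import Pool.Agent.Helper32.Pierce.FourPoints

/-!
# Local 2-piercing implies piercing by four points
-/

namespace Pool.Agent.Helper32.Pierce

open Finset Real Classical

/-- The family version, for compact convex sets indexed by a finite type. -/
theorem four_indexed : ∃ k₀ : ℕ, ∀ (ι : Type) [Fintype ι] (C : ι → Set ℂ),
    (∀ i, Convex ℝ (C i)) → (∀ i, IsCompact (C i)) →
    (∀ L : Finset ι, L.card ≤ k₀ → ∃ p q : ℂ, ∀ c ∈ L, p ∈ C c ∨ q ∈ C c) →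
    ∃ Y : Finset ℂ, Y.card ≤ 4 ∧ ∀ i, ∃ y ∈ Y, y ∈ C i := by
  obtain ⟨k₀, hk₀⟩ := exists_pair (1 / 40) (by norm_num)
  refine ⟨k₀, ?_⟩
  intro ι _ C hconv hcomp hloc
  by_cases hι : Nonempty ι
  swap
  · exact ⟨∅, by simp, fun i => absurd ⟨i⟩ hι⟩
  set Ps : Finset (Finset ι) :=
    univ.filter (fun T => ∃ p q : ℂ, ∀ i, i ∈ T ↔ (p ∈ C i ∨ q ∈ C i)) with hPs
  obtain ⟨m, hm0, hm1, hm⟩ := minimax Ps (1 - 1 / 40) (by
    intro w hw hw1
    obtain ⟨p, q, hpq⟩ := hk₀ ι C hconv hcomp hloc w hw hw1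
    refine ⟨univ.filter (fun i => p ∈ C i ∨ q ∈ C i), ?_, ?_⟩
    · rw [hPs, mem_filter]
      exact ⟨mem_univ _, p, q, fun i => by simp⟩
    · have h1 := Finset.sum_filter_add_sum_filter_not univ (fun i => p ∈ C i ∨ q ∈ C i) w
      have h2 : (univ.filter (fun i => ¬ (p ∈ C i ∨ q ∈ C i))) =
          univ.filter (fun i => p ∉ C i ∧ q ∉ C i) := by
        ext i; simp [not_or]
      rw [h2, hw1] at h1
      linarith)
  have hch : ∀ T : {T // T ∈ Ps}, ∃ x : ℂ × ℂ, ∀ i, i ∈ T.1 ↔ (x.1 ∈ C i ∨ x.2 ∈ C i) := by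
    intro T
    obtain ⟨p, q, h⟩ := (mem_filter.1 T.2).2
    exact ⟨(p, q), h⟩
  choose x hx using hch
  obtain ⟨Y, hY, hYC⟩ := four_points (S := {T // T ∈ Ps}) (fun T => m T.1)
    (fun T => hm0 T.1 T.2) (by rw [← hm1, Finset.sum_coe_sort Ps m])
    (fun T => (x T).1) (fun T => (x T).2)
  refine ⟨Y, hY, fun i => hYC (C i) (hconv i) (hcomp i) ?_⟩
  have h1 : ∑ T : {T // T ∈ Ps} with (x T).1 ∉ C i ∧ (x T).2 ∉ C i, m T.1 =
      ∑ T ∈ Ps with i ∉ T, m T := by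
    rw [Finset.sum_filter, Finset.sum_filter, ← Finset.sum_coe_sort Ps]
    refine Finset.sum_congr rfl fun T _ => ?_
    have h2 := hx T i
    by_cases h3 : i ∈ T.1
    · rw [if_neg (by rw [h2] at h3; tauto), if_neg (by simpa using h3)]
    · rw [if_pos (by rw [h2] at h3; tauto), if_pos h3]
  rw [h1]
  have h2 := hm i
  have h3 := Finset.sum_filter_add_sum_filter_not Ps (fun T => i ∈ T) m
  linarith

lemma exists_pair_of_card_le_two {α : Type*} [Nonempty α] (P : Finset α) (h : P.card ≤ 2) :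
    ∃ p q, ∀ x ∈ P, x = p ∨ x = q := by
  have h3 : P.card = 0 ∨ P.card = 1 ∨ P.card = 2 := by omega
  rcases h3 with h | h | h
  · obtain ⟨a⟩ := (inferInstance : Nonempty α)
    rw [Finset.card_eq_zero] at h
    exact ⟨a, a, by simp [h]⟩
  · obtain ⟨a, rfl⟩ := Finset.card_eq_one.1 h
    exact ⟨a, a, by simp⟩
  · obtain ⟨a, b, _, rfl⟩ := Finset.card_eq_two.1 h
    exact ⟨a, b, by simp⟩

/-- Local 2-piercing implies piercing by four points. -/
theorem four : ∃ k₀ : ℕ, ∀ F : Finset (Set (EuclideanSpace ℝ (Fin 2))),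
    (∀ C ∈ F, Convex ℝ C) →
    (∀ G ⊆ F, G.card ≤ k₀ →
      ∃ P : Finset (EuclideanSpace ℝ (Fin 2)), P.card ≤ 2 ∧ ∀ C ∈ G, ∃ p ∈ P, p ∈ C) →
    ∃ P : Finset (EuclideanSpace ℝ (Fin 2)), P.card ≤ 4 ∧ ∀ C ∈ F, ∃ p ∈ P, p ∈ C := by
  obtain ⟨k₀, hk₀⟩ := four_indexed
  refine ⟨k₀, ?_⟩
  intro F hconv hloc
  let e : ℂ ≃ₗᵢ[ℝ] EuclideanSpace ℝ (Fin 2) := Complex.orthonormalBasisOneI.repr
  -- the piercing sets of the small subfamilies
  have hloc' : ∀ G : Finset (Set (EuclideanSpace ℝ (Fin 2))),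
      ∃ P : Finset (EuclideanSpace ℝ (Fin 2)), (G ⊆ F → G.card ≤ k₀ →
        P.card ≤ 2 ∧ ∀ C ∈ G, ∃ p ∈ P, p ∈ C) := by
    intro G
    by_cases hG : G ⊆ F ∧ G.card ≤ k₀
    · obtain ⟨P, hP⟩ := hloc G hG.1 hG.2
      exact ⟨P, fun _ _ => hP⟩
    · exact ⟨∅, fun h1 h2 => absurd ⟨h1, h2⟩ hG⟩
  choose Pc hPc using hloc'
  set X₀ : Finset (EuclideanSpace ℝ (Fin 2)) := F.powerset.biUnion Pc with hX₀
  set D : {C // C ∈ F} → Set ℂ := fun i =>
    convexHull ℝ (e.symm '' ((X₀.filter (fun x => x ∈ i.1) :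
      Finset (EuclideanSpace ℝ (Fin 2))) : Set (EuclideanSpace ℝ (Fin 2)))) with hD
  have hDsub : ∀ i, ∀ w ∈ D i, e w ∈ i.1 := by
    intro i w hw
    have hc : Convex ℝ {w : ℂ | e w ∈ i.1} := (hconv i.1 i.2).linear_preimage e.toLinearEquiv.toLinearMap
    refine convexHull_min ?_ hc hw
    rintro _ ⟨x, hx, rfl⟩
    have hx' := (mem_filter.1 (mem_coe.1 hx)).2
    change e (e.symm x) ∈ i.1
    rwa [LinearIsometryEquiv.apply_symm_apply]
  obtain ⟨Y, hY, hYD⟩ := hk₀ {C // C ∈ F} D (fun i => convex_convexHull ℝ _)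
    (fun i => ((Finset.finite_toSet _).image _).isCompact_convexHull (𝕜 := ℝ)) (by
      intro L hL
      set G := L.image Subtype.val with hG
      have hGF : G ⊆ F := by
        intro C hC
        obtain ⟨i, _, rfl⟩ := Finset.mem_image.1 hC
        exact i.2
      have hGc : G.card ≤ k₀ := card_image_le.trans hL
      obtain ⟨h2, h3⟩ := hPc G hGF hGc
      obtain ⟨p, q, hpq⟩ := exists_pair_of_card_le_two (Pc G) h2
      refine ⟨e.symm p, e.symm q, fun i hi => ?_⟩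
      obtain ⟨r, hr, hri⟩ := h3 i.1 (mem_image_of_mem _ hi)
      have hrX : r ∈ X₀ := mem_biUnion.2 ⟨G, mem_powerset.2 hGF, hr⟩
      have hrD : e.symm r ∈ D i := by
        refine subset_convexHull ℝ _ ⟨r, ?_, rfl⟩
        exact mem_coe.2 (mem_filter.2 ⟨hrX, hri⟩)
      have h4 := hpq _ hr
      rcases h4 with rfl | rfl
      · exact Or.inl hrD
      · exact Or.inr hrD)
  refine ⟨Y.map e.toEquiv.toEmbedding, (card_map _).le.trans hY, ?_⟩
  intro C hC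
  obtain ⟨y, hy, hyD⟩ := hYD ⟨C, hC⟩
  exact ⟨e y, (mem_map' e.toEquiv.toEmbedding).2 hy, hDsub ⟨C, hC⟩ y hyD⟩

end Pool.Agent.Helper32.Pierce
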