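import Mathlib

/-!
# A finite minimax theorem
-/

namespace Pool.Agent.Helper32.Pierce

open Finset Classical

/-- Finite minimax theorem, for a 0-1 matrix given by a set system. -/
theorem minimax {ι : Type} [Fintype ι] [Nonempty ι] (Ps : Finset (Finset ι)) (r : ℝ)
    (h : ∀ w : ι → ℝ, (∀ i, 0 ≤ w i) → ∑ i, w i = 1 → ∃ P ∈ Ps, r ≤ ∑ i ∈ P, w i) :
    ∃ m : Finset ι → ℝ, (∀ P ∈ Ps, 0 ≤ m P) ∧ ∑ P ∈ Ps, m P = 1 ∧
      ∀ i, r ≤ ∑ P ∈ Ps with i ∈ P, m P := by
  set v : Finset ι → (ι → ℝ) := fun P i => if i ∈ P then 1 else 0 with hv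
  set K : Set (ι → ℝ) := convexHull ℝ (v '' (Ps : Set (Finset ι))) with hK
  set U : Set (ι → ℝ) := {z | ∀ i, r ≤ z i} with hU
  have hPs : Ps.Nonempty := by
    obtain ⟨i⟩ := (inferInstance : Nonempty ι)
    obtain ⟨P, hP, _⟩ := h (fun j => if j = i then 1 else 0)
      (fun j => by split_ifs <;> norm_num) (by simp)
    exact ⟨P, hP⟩
  by_cases hKU : (K ∩ U).Nonempty
  · obtain ⟨z, hzK, hzU⟩ := hKU
    have : v '' (Ps : Set (Finset ι)) = ((Ps.image v : Finset (ι → ℝ)) : Set (ι → ℝ)) := by
      rw [Finset.coe_image]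
    rw [hK, this, Finset.convexHull_eq] at hzK
    obtain ⟨u, hu0, hu1, hu2⟩ := hzK
    have hinj : Function.Injective v := by
      intro P Q hPQ
      ext i
      have := congrFun hPQ i
      simp only [hv] at this
      by_cases h1 : i ∈ P <;> by_cases h2 : i ∈ Q <;> simp_all
    refine ⟨fun P => u (v P), fun P hP => hu0 _ (Finset.mem_image_of_mem v hP), ?_, ?_⟩
    · rw [← hu1, Finset.sum_image (fun _ _ _ _ hh => hinj hh)]
    · intro i
      have h1 := hzU i
      rw [← hu2, Finset.centerMass_eq_of_sum_1 _ _ hu1,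
        Finset.sum_image (fun _ _ _ _ hh => hinj hh), Finset.sum_apply] at h1
      refine h1.trans (le_of_eq ?_)
      rw [Finset.sum_filter]
      refine Finset.sum_congr rfl fun P _ => ?_
      simp only [hv, id, Pi.smul_apply, smul_eq_mul, mul_ite, mul_one, mul_zero]
  · exfalso
    have hdisj : Disjoint K U := by
      rw [Set.disjoint_iff_inter_eq_empty]
      exact Set.not_nonempty_iff_eq_empty.1 hKU
    have hKc : IsCompact K := ((Ps.finite_toSet).image v).isCompact_convexHull (𝕜 := ℝ)
    have hUconv : Convex ℝ U := by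
      intro x hx y hy a b ha hb hab i
      simp only [Pi.add_apply, Pi.smul_apply, smul_eq_mul]
      have h1 := hx i
      have h2 := hy i
      have h3 : r = a * r + b * r := by rw [← add_mul, hab, one_mul]
      rw [h3]
      gcongr
    have hUcl : IsClosed U := by
      have : U = ⋂ i, {z : ι → ℝ | r ≤ z i} := by
        ext z; simp [hU]
      rw [this]
      exact isClosed_iInter fun i => isClosed_le continuous_const (continuous_apply i)
    obtain ⟨f, a, b, hfa, hab, hfb⟩ := geometric_hahn_banach_compact_closed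
      (convex_convexHull ℝ _) hKc hUconv hUcl hdisj
    set e : ι → (ι → ℝ) := fun i j => if j = i then 1 else 0 with he
    have hf : ∀ z : ι → ℝ, f z = ∑ i, z i * f (e i) := by
      intro z
      have : z = ∑ i, z i • e i := by
        ext j
        simp [he, Finset.sum_apply]
      conv_lhs => rw [this]
      rw [map_sum]
      simp
    have hw0 : ∀ i, 0 ≤ f (e i) := by
      intro i
      by_contra hneg
      push Not at hneg
      obtain ⟨n, hn⟩ := exists_nat_gt ((f (fun _ => r) - b) / (- f (e i)))
      rw [div_lt_iff₀ (by linarith)] at hn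
      have h1 := hfb ((fun _ => r) + (n : ℝ) • e i) (by
        intro j
        simp only [Pi.add_apply, Pi.smul_apply, smul_eq_mul, he]
        split_ifs <;> simp)
      rw [map_add, map_smul, smul_eq_mul] at h1
      linarith
    set W := ∑ i, f (e i) with hW
    have hr : f (fun _ => r) = r * W := by
      rw [hf, hW, Finset.mul_sum]
    have hrb := hfb (fun _ => r) (fun i => le_rfl)
    have hP : ∀ P ∈ Ps, ∑ i ∈ P, f (e i) < a := by
      intro P hP
      have h1 := hfa (v P) (subset_convexHull ℝ _ ⟨P, hP, rfl⟩)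
      rw [hf] at h1
      refine lt_of_eq_of_lt ?_ h1
      simp only [hv, ite_mul, one_mul, zero_mul]
      rw [Finset.sum_ite_mem, Finset.univ_inter]
    have hWpos : 0 < W := by
      have h0 : 0 ≤ W := Finset.sum_nonneg fun i _ => hw0 i
      rcases h0.lt_or_eq with h1 | h1
      · exact h1
      · exfalso
        rw [hr, ← h1, mul_zero] at hrb
        obtain ⟨P, hP'⟩ := hPs
        have h2 := hP P hP'
        have h3 : 0 ≤ ∑ i ∈ P, f (e i) := Finset.sum_nonneg fun i _ => hw0 i
        linarith
    obtain ⟨P, hP', hP2⟩ := h (fun i => f (e i) / W) (fun i => div_nonneg (hw0 i) hWpos.le)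
      (by rw [← Finset.sum_div]; exact div_self hWpos.ne')
    rw [← Finset.sum_div, le_div_iff₀ hWpos] at hP2
    have h4 := hP P hP'
    rw [hr] at hrb
    linarith

end Pool.Agent.Helper32.Pierce
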