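import Pool.Agent.Helper32.Pierce.Arcs
import Pool.Agent.Helper32.Pierce.Branch
import Pool.Agent.Helper32.Pierce.Minimax

/-!
# Four points
-/

namespace Pool.Agent.Helper32.Pierce

open Finset Real Classical

/-- Centre point theorem in the plane. -/
theorem center {Z : Type} [Fintype Z] (ν : Z → ℝ) (hν : ∀ i, 0 ≤ ν i) (z : Z → ℂ) :
    ∃ y : ℂ, ∀ K : Set ℂ, Convex ℝ K → 3 * ∑ i with z i ∉ K, ν i < ∑ i, ν i → y ∈ K := by
  set s : Finset (Finset Z) := univ.filter (fun T => 3 * ∑ i with i ∉ T, ν i < ∑ i, ν i) with hs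
  set F : Finset Z → Set ℂ := fun T => convexHull ℝ (z '' (T : Set Z)) with hF
  have hinter : ∀ I ⊆ s, I.card ≤ Module.finrank ℝ ℂ + 1 → (⋂ i ∈ I, F i).Nonempty := by
    intro I hI hcard
    rw [Complex.finrank_real_complex] at hcard
    by_cases hne : I.Nonempty
    · have hex : ∃ i, ∀ T ∈ I, i ∈ T := by
        by_contra hcon
        push Not at hcon
        have h1 : ∑ i, ν i ≤ ∑ T ∈ I, ∑ i with i ∉ T, ν i := by
          have : ∀ i, ν i ≤ ∑ T ∈ I, if i ∉ T then ν i else 0 := by
            intro i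
            obtain ⟨T, hT, hiT⟩ := hcon i
            refine le_trans ?_ (Finset.single_le_sum (f := fun T => if i ∉ T then ν i else 0)
              (fun T _ => ?_) hT)
            · rw [if_pos hiT]
            · split_ifs
              · exact le_rfl
              · exact hν i
          refine (Finset.sum_le_sum fun i _ => this i).trans ?_
          rw [Finset.sum_comm]
          refine Finset.sum_le_sum fun T _ => ?_
          rw [Finset.sum_filter]
        have h2 : ∑ T ∈ I, (3 * ∑ i with i ∉ T, ν i) < ∑ T ∈ I, ∑ i, ν i :=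
          Finset.sum_lt_sum_of_nonempty hne fun T hT => (mem_filter.1 (hI hT)).2
        rw [← Finset.mul_sum, Finset.sum_const, nsmul_eq_mul] at h2
        have h3 : 0 ≤ ∑ i, ν i := Finset.sum_nonneg fun i _ => hν i
        have h4 : (I.card : ℝ) ≤ 3 := by exact_mod_cast hcard
        nlinarith
      obtain ⟨i, hi⟩ := hex
      refine ⟨z i, ?_⟩
      simp only [Set.mem_iInter]
      intro T hT
      exact subset_convexHull ℝ _ ⟨i, hi T hT, rfl⟩
    · rw [Finset.not_nonempty_iff_eq_empty] at hne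
      rw [hne]
      simp
  obtain ⟨y, hy⟩ := Convex.helly_theorem' (F := F) (s := s)
    (fun T _ => convex_convexHull ℝ _) hinter
  refine ⟨y, fun K hK hlt => ?_⟩
  simp only [Set.mem_iInter] at hy
  have hT : (univ.filter (fun i => z i ∈ K)) ∈ s := by
    rw [hs, mem_filter]
    refine ⟨mem_univ _, ?_⟩
    have : (univ.filter (fun i => i ∉ univ.filter (fun i => z i ∈ K))) =
        univ.filter (fun i => z i ∉ K) := by
      ext i
      simp
    rw [this]
    exact hlt
  have h1 := hy _ hT
  refine convexHull_min ?_ hK h1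
  rintro w ⟨i, hi, rfl⟩
  exact (mem_filter.1 (mem_coe.1 hi)).2

/-- the functional `w ↦ |w| sin (arg w - θ)` -/
noncomputable def fsin (θ : ℝ) : ℂ →L[ℝ] ℝ := cos θ • Complex.imCLM - sin θ • Complex.reCLM

lemma fsin_apply (θ : ℝ) (w : ℂ) : fsin θ w = ‖w‖ * sin (w.arg - θ) := by
  have h0 : fsin θ w = cos θ * w.im - sin θ * w.re := rfl
  have h1 := Complex.norm_mul_cos_arg w
  have h2 := Complex.norm_mul_sin_arg w
  rw [h0, sin_sub]
  have h3 : ‖w‖ * (sin w.arg * cos θ - cos w.arg * sin θ) =
      (‖w‖ * sin w.arg) * cos θ - (‖w‖ * cos w.arg) * sin θ := by ring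
  rw [h3, h1, h2]
  ring

lemma exists_fsin (f : ℂ →L[ℝ] ℝ) : ∃ R θ : ℝ, 0 ≤ R ∧ ∀ w, f w = R * (‖w‖ * sin (w.arg - θ)) := by
  set u := f 1
  set v := f Complex.I
  set x : ℂ := ⟨v, -u⟩ with hx
  refine ⟨‖x‖, x.arg, norm_nonneg _, fun w => ?_⟩
  have h1 : ‖x‖ * cos x.arg = v := Complex.norm_mul_cos_arg x
  have h2 : ‖x‖ * sin x.arg = -u := Complex.norm_mul_sin_arg x
  have h3 : ‖w‖ * cos w.arg = w.re := Complex.norm_mul_cos_arg w
  have h4 : ‖w‖ * sin w.arg = w.im := Complex.norm_mul_sin_arg w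
  have h5 : f w = w.re * u + w.im * v := by
    have : w = w.re • (1 : ℂ) + w.im • Complex.I := by
      apply Complex.ext <;> simp
    conv_lhs => rw [this]
    rw [map_add, map_smul, map_smul, smul_eq_mul, smul_eq_mul]
  rw [h5, sin_sub]
  have h6 : ‖x‖ * (‖w‖ * (sin w.arg * cos x.arg - cos w.arg * sin x.arg)) =
      (‖w‖ * sin w.arg) * (‖x‖ * cos x.arg) - (‖w‖ * cos w.arg) * (‖x‖ * sin x.arg) := by ring
  rw [h6, h1, h2, h3, h4]
  ring

theorem wedges {Z : Type} [Fintype Z] (ν : Z → ℝ) (hν : ∀ i, 0 ≤ ν i) (z : Z → ℂ) (y : ℂ)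
    (c : ℝ) (hc : 0 < c) (hhalf : ∀ f : ℂ →L[ℝ] ℝ, 4 * c ≤ ∑ k with f y ≤ f (z k), ν k) :
    ∃ W : Fin 3 → Finset Z, (∀ i, c ≤ ∑ k ∈ W i, ν k) ∧
      ∀ f : ℂ →L[ℝ] ℝ, ∃ i, ∀ k ∈ W i, f y ≤ f (z k) := by
  by_cases h0 : c ≤ ∑ k with z k = y, ν k
  · refine ⟨fun _ => univ.filter (fun k => z k = y), fun _ => h0, fun f => ⟨0, fun k hk => ?_⟩⟩
    rw [(mem_filter.1 hk).2]
  · push Not at h0
    set t : Z → ℝ := fun k => (z k - y).arg with ht
    set ν' : Z → ℝ := fun k => if z k = y then 0 else ν k with hν'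
    have hν'0 : ∀ k, 0 ≤ ν' k := by
      intro k
      simp only [hν']
      split_ifs
      · exact le_rfl
      · exact hν k
    obtain ⟨W, hW1, hW2⟩ := arcs t ν' hν'0 c hc (by
      intro θ
      have h1 := hhalf (fsin θ)
      have h2 : ∑ k with fsin θ y ≤ fsin θ (z k), ν k ≤
          ∑ k with z k = y, ν k + ∑ k with 0 ≤ sin (t k - θ), ν' k := by
        rw [Finset.sum_filter, Finset.sum_filter, Finset.sum_filter, ← Finset.sum_add_distrib]
        refine Finset.sum_le_sum fun k _ => ?_
        by_cases hk : z k = y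
        · simp only [hk, if_true, le_refl]
          have := hν'0 k
          split_ifs <;> linarith
        · rw [if_neg hk, zero_add]
          by_cases h3 : fsin θ y ≤ fsin θ (z k)
          · rw [if_pos h3]
            have h4 : 0 ≤ ‖z k - y‖ * sin (t k - θ) := by
              rw [ht, ← fsin_apply, map_sub]
              linarith
            have h5 : 0 < ‖z k - y‖ := norm_pos_iff.2 (sub_ne_zero.2 hk)
            have h6 : 0 ≤ sin (t k - θ) := by
              by_contra hneg
              push Not at hneg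
              have := mul_neg_of_pos_of_neg h5 hneg
              linarith
            rw [if_pos h6]
            simp only [hν']
            rw [if_neg hk]
          · rw [if_neg h3]
            have := hν'0 k
            split_ifs <;> linarith
      linarith)
    refine ⟨fun i => (W i).filter (fun k => z k ≠ y), fun i => ?_, fun f => ?_⟩
    · refine (hW1 i).trans (le_of_eq ?_)
      rw [Finset.sum_filter]
      refine Finset.sum_congr rfl fun k _ => ?_
      simp only [hν']
      split_ifs <;> simp_all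
    · obtain ⟨R, θ, hR, hf⟩ := exists_fsin f
      obtain ⟨i, hi⟩ := hW2 θ
      refine ⟨i, fun k hk => ?_⟩
      have h1 := hi k (mem_filter.1 hk).1
      have h2 : f (z k) - f y = R * (‖z k - y‖ * sin (t k - θ)) := by
        rw [← map_sub, hf]
      have h3 : 0 ≤ R * (‖z k - y‖ * sin (t k - θ)) := by positivity
      linarith

theorem four_points {S : Type} [Fintype S] (m : S → ℝ) (hm : ∀ s, 0 ≤ m s) (hm1 : ∑ s, m s = 1)
    (P Q : S → ℂ) : ∃ Y : Finset ℂ, Y.card ≤ 4 ∧ ∀ C : Set ℂ, Convex ℝ C → IsCompact C →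
      ∑ s with P s ∉ C ∧ Q s ∉ C, m s ≤ 1 / 40 → ∃ y ∈ Y, y ∈ C := by
  set z : S × Bool → ℂ := fun x => if x.2 then P x.1 else Q x.1 with hz
  set ν : S × Bool → ℝ := fun x => m x.1 with hν
  have hν0 : ∀ x, 0 ≤ ν x := fun x => hm x.1
  have hνsum : ∑ x, ν x = 2 := by
    rw [Fintype.sum_prod_type]
    simp only [hν, Fintype.sum_bool]
    rw [Finset.sum_add_distrib, hm1]
    norm_num
  obtain ⟨y, hy⟩ := center ν hν0 z
  obtain ⟨W, hW1, hW2⟩ := wedges ν hν0 z y (1 / 6) (by norm_num) (by
    intro f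
    by_contra hcon
    push Not at hcon
    have hK : Convex ℝ {w : ℂ | f w < f y} := convex_halfSpace_lt f.toLinearMap.isLinear _
    have h1 := hy {w : ℂ | f w < f y} hK (by
      rw [hνsum]
      have : (univ.filter (fun i => z i ∉ {w : ℂ | f w < f y})) =
          univ.filter (fun k => f y ≤ f (z k)) := by
        ext k
        simp
      rw [this]
      linarith)
    exact lt_irrefl (f y) h1)
  have hcen : ∀ i, ∃ y' : ℂ, ∀ K : Set ℂ, Convex ℝ K →
      3 * ∑ x with z (x.1, !x.2) ∉ K, (if x ∈ W i then ν x else 0) <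
        ∑ x, (if x ∈ W i then ν x else 0) → y' ∈ K := by
    intro i
    exact center (fun x => if x ∈ W i then ν x else 0)
      (fun x => by
        split_ifs
        · exact hν0 x
        · exact le_rfl) (fun x => z (x.1, !x.2))
  choose y' hy' using hcen
  refine ⟨insert y (univ.image y'), ?_, ?_⟩
  · refine (card_insert_le _ _).trans ?_
    have : (univ.image y').card ≤ 3 := card_image_le.trans (by simp)
    omega
  · intro C hC hCc hCm
    by_cases hyC : y ∈ C
    · exact ⟨y, mem_insert_self _ _, hyC⟩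
    obtain ⟨f, u, hfu, huy⟩ := geometric_hahn_banach_closed_point hC hCc.isClosed hyC
    obtain ⟨i, hi⟩ := hW2 f
    have hmiss : ∀ x ∈ W i, z x ∉ C := by
      intro x hx hxC
      have h1 := hi x hx
      have h2 := hfu _ hxC
      linarith
    refine ⟨y' i, mem_insert_of_mem (mem_image_of_mem _ (mem_univ _)), hy' i C hC ?_⟩
    have h1 : (1 : ℝ) / 6 ≤ ∑ x, (if x ∈ W i then ν x else 0) := by
      refine (hW1 i).trans (le_of_eq ?_)
      rw [Finset.sum_ite_mem, Finset.univ_inter]
    have h2 : ∑ x with z (x.1, !x.2) ∉ C, (if x ∈ W i then ν x else 0) ≤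
        ∑ x with z x ∉ C ∧ z (x.1, !x.2) ∉ C, ν x := by
      rw [Finset.sum_filter, Finset.sum_filter]
      refine Finset.sum_le_sum fun x _ => ?_
      by_cases h3 : x ∈ W i
      · have h4 := hmiss x h3
        simp only [h3, h4, if_true, true_and, not_false_eq_true, le_refl]
      · simp only [h3, if_false, ite_self]
        split_ifs
        · exact hν0 x
        · exact le_rfl
    have h3 : ∑ x with z x ∉ C ∧ z (x.1, !x.2) ∉ C, ν x =
        2 * ∑ s with P s ∉ C ∧ Q s ∉ C, m s := by
      rw [Finset.sum_filter, Finset.sum_filter, Fintype.sum_prod_type, Finset.mul_sum]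
      refine Finset.sum_congr rfl fun s _ => ?_
      simp only [hz, hν, Fintype.sum_bool, Bool.not_true, Bool.not_false, if_true,
        Bool.false_eq_true, if_false]
      by_cases hP : P s ∈ C <;> by_cases hQ : Q s ∈ C <;> simp [hP, hQ]
      ring
    rw [h3] at h2
    linarith

end Pool.Agent.Helper32.Pierce
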