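import Mathlib

/-!
# Near-1 fractional Helly theorem in the plane
-/

namespace Pool.Agent.Helper32.Pierce

open Finset

/-- Helly's theorem for three convex sets and a ball: the point of `A ∩ B` nearest to the origin
lies in `C`. -/
theorem mem_of_nearest {A B C : Set ℂ} (hA : Convex ℝ A) (hB : Convex ℝ B) (hC : Convex ℝ C)
    {p : ℂ} (hpA : p ∈ A) (hpB : p ∈ B) (hmin : ∀ z ∈ A ∩ B, ‖p‖ ≤ ‖z‖)
    (hABC : (A ∩ B ∩ C).Nonempty) (hAC : ∃ z ∈ A ∩ C, ‖z‖ ≤ ‖p‖) (hBC : ∃ z ∈ B ∩ C, ‖z‖ ≤ ‖p‖) :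
    p ∈ C := by
  let D : Set ℂ := Metric.closedBall 0 ‖p‖
  let F : Fin 4 → Set ℂ := ![A, B, C, D]
  have hconv : ∀ i ∈ (Finset.univ : Finset (Fin 4)), Convex ℝ (F i) := by
    intro i _
    fin_cases i
    · exact hA
    · exact hB
    · exact hC
    · exact convex_closedBall 0 _
  have hinter : ∀ I ⊆ (Finset.univ : Finset (Fin 4)), I.card ≤ Module.finrank ℝ ℂ + 1 →
      (⋂ i ∈ I, F i).Nonempty := by
    intro I _ hI
    rw [Complex.finrank_real_complex] at hI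
    have hj : ∃ j, j ∉ I := by
      by_contra h
      push Not at h
      have : I = Finset.univ := Finset.eq_univ_iff_forall.2 h
      rw [this] at hI
      simp at hI
    obtain ⟨j, hj⟩ := hj
    have key : ∀ z, (∀ i, i ≠ j → z ∈ F i) → (⋂ i ∈ I, F i).Nonempty := by
      intro z hz
      refine ⟨z, ?_⟩
      simp only [Set.mem_iInter]
      intro i hi
      exact hz i (fun h => hj (h ▸ hi))
    fin_cases j
    · obtain ⟨z, hz, hz2⟩ := hBC
      refine key z ?_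
      intro i hi
      fin_cases i
      · exact absurd rfl hi
      · exact hz.1
      · exact hz.2
      · exact mem_closedBall_zero_iff.2 hz2
    · obtain ⟨z, hz, hz2⟩ := hAC
      refine key z ?_
      intro i hi
      fin_cases i
      · exact hz.1
      · exact absurd rfl hi
      · exact hz.2
      · exact mem_closedBall_zero_iff.2 hz2
    · refine key p ?_
      intro i hi
      fin_cases i
      · exact hpA
      · exact hpB
      · exact absurd rfl hi
      · exact mem_closedBall_zero_iff.2 le_rfl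
    · obtain ⟨z, hz⟩ := hABC
      refine key z ?_
      intro i hi
      fin_cases i
      · exact hz.1.1
      · exact hz.1.2
      · exact hz.2
      · exact absurd rfl hi
  obtain ⟨z, hz⟩ := Convex.helly_theorem' hconv hinter
  simp only [Set.mem_iInter, Finset.mem_univ, true_implies] at hz
  have hzA : z ∈ A := hz 0
  have hzB : z ∈ B := hz 1
  have hzC : z ∈ C := hz 2
  have hzD : ‖z‖ ≤ ‖p‖ := mem_closedBall_zero_iff.1 (hz 3)
  by_contra hp
  have hne : z ≠ p := fun h => hp (h ▸ hzC)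
  have hmid : ‖(1 / 2 : ℝ) • z + (1 / 2 : ℝ) • p‖ < ‖p‖ :=
    norm_combo_lt_of_ne hzD le_rfl hne (by norm_num) (by norm_num) (by norm_num)
  have hmem : (1 / 2 : ℝ) • z + (1 / 2 : ℝ) • p ∈ A ∩ B :=
    ⟨hA hzA hpA (by norm_num) (by norm_num) (by norm_num),
      hB hzB hpB (by norm_num) (by norm_num) (by norm_num)⟩
  exact absurd (hmin _ hmem) (not_le.2 hmid)

/-- Quantiles of a function on a weighted finite set. -/
theorem exists_quantile' {ι : Type*} (X : Finset ι) (w : ι → ℝ) (φ : ι → ℝ)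
    (κ : ℝ) (hκ : 0 < κ) (hX : κ ≤ ∑ i ∈ X, w i) :
    ∃ k ∈ X, ∑ i ∈ X with φ k < φ i, w i ≤ κ ∧ κ ≤ ∑ i ∈ X with φ k ≤ φ i, w i := by
  classical
  have hne : X.Nonempty := by
    by_contra h
    rw [Finset.not_nonempty_iff_eq_empty] at h
    rw [h, Finset.sum_empty] at hX
    linarith
  set Y := X.filter (fun i => κ ≤ ∑ j ∈ X with φ i ≤ φ j, w j) with hY
  have hYne : Y.Nonempty := by
    obtain ⟨i, hi, hi2⟩ := X.exists_min_image φ hne
    refine ⟨i, ?_⟩
    rw [hY, Finset.mem_filter]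
    refine ⟨hi, ?_⟩
    rwa [Finset.filter_true_of_mem (fun j hj => hi2 j hj)]
  obtain ⟨i, hi, hi2⟩ := Y.exists_max_image φ hYne
  refine ⟨i, (Finset.mem_filter.1 hi).1, ?_, (Finset.mem_filter.1 hi).2⟩
  by_cases hemp : (X.filter (fun j => φ i < φ j)).Nonempty
  · obtain ⟨k, hk, hk2⟩ := (X.filter (fun j => φ i < φ j)).exists_min_image φ hemp
    rw [Finset.mem_filter] at hk
    have hkY : k ∉ Y := fun h => absurd (hi2 k h) (not_le.2 hk.2)
    have h1 : ∑ j ∈ X with φ k ≤ φ j, w j < κ := by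
      by_contra h
      push Not at h
      exact hkY (Finset.mem_filter.2 ⟨hk.1, h⟩)
    have h2 : X.filter (fun j => φ i < φ j) = X.filter (fun j => φ k ≤ φ j) := by
      ext j
      simp only [Finset.mem_filter]
      constructor
      · rintro ⟨h, h'⟩
        exact ⟨h, hk2 j (Finset.mem_filter.2 ⟨h, h'⟩)⟩
      · rintro ⟨h, h'⟩
        exact ⟨h, hk.2.trans_le h'⟩
    rw [h2]
    exact h1.le
  · rw [Finset.not_nonempty_iff_eq_empty] at hemp
    rw [hemp, Finset.sum_empty]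
    exact hκ.le

theorem exists_quantile {ι : Type*} (X : Finset ι) (w : ι → ℝ) (φ : ι → ℝ)
    (κ : ℝ) (hκ : 0 < κ) (hX : κ ≤ ∑ i ∈ X, w i) :
    ∃ t : ℝ, ∑ i ∈ X with t < φ i, w i ≤ κ ∧ κ ≤ ∑ i ∈ X with t ≤ φ i, w i := by
  obtain ⟨k, _, hk⟩ := exists_quantile' X w φ κ hκ hX
  exact ⟨φ k, hk⟩

open Classical in
/-- **Near-1 fractional Helly theorem in the plane.** -/
theorem nearHelly {ι : Type*} (C : ι → Set ℂ) (X : Finset ι) (w : ι → ℝ) (hw : ∀ i, 0 ≤ w i)
    (hconv : ∀ i ∈ X, Convex ℝ (C i)) (hcomp : ∀ i ∈ X, IsCompact (C i)) (ε : ℝ) (hε : 0 < ε)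
    (h : ∀ i ∈ X, ∑ j ∈ X, ∑ k ∈ X, (if (C i ∩ C j ∩ C k).Nonempty then 0 else w j * w k) <
      ε ^ 2 / 16) :
    ∃ p : ℂ, ∑ i ∈ X with p ∉ C i, w i ≤ ε := by
  by_cases hW : ∑ i ∈ X, w i ≤ ε
  · refine ⟨0, le_trans ?_ hW⟩
    exact Finset.sum_le_sum_of_subset_of_nonneg (Finset.filter_subset _ _) fun i _ _ => hw i
  push Not at hW
  have hne : X.Nonempty := by
    by_contra h0
    rw [Finset.not_nonempty_iff_eq_empty] at h0
    rw [h0, Finset.sum_empty] at hW
    linarith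
  set κ := ε / 4 with hκ
  have hκ0 : 0 < κ := by positivity
  set H : ι → ι → ℝ := fun i j => Metric.infDist 0 (C i ∩ C j) with hH
  have hq : ∀ i, ∃ t : ℝ, ∑ j ∈ X with t < H i j, w j ≤ κ ∧ κ ≤ ∑ j ∈ X with t ≤ H i j, w j :=
    fun i => exists_quantile X w (H i) κ hκ0 (by linarith)
  choose t ht1 ht2 using hq
  obtain ⟨i₀, hi₀, hmax⟩ := X.exists_max_image t hne
  set Y := X.filter (fun j => t i₀ ≤ H i₀ j) with hY
  set bad : ι → ℝ := fun j => ∑ k ∈ X, (if (C i₀ ∩ C j ∩ C k).Nonempty then 0 else w k) with hbad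
  have hbad0 : ∀ j, 0 ≤ bad j := by
    intro j
    refine Finset.sum_nonneg fun k _ => ?_
    split_ifs
    · exact le_rfl
    · exact hw k
  have hj : ∃ j ∈ Y, bad j < ε / 4 := by
    by_contra hc
    push Not at hc
    have h1 := h i₀ hi₀
    have h2 : ∑ j ∈ X, ∑ k ∈ X, (if (C i₀ ∩ C j ∩ C k).Nonempty then 0 else w j * w k) =
        ∑ j ∈ X, w j * bad j := by
      refine Finset.sum_congr rfl fun j _ => ?_
      rw [hbad, Finset.mul_sum]
      refine Finset.sum_congr rfl fun k _ => ?_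
      split_ifs <;> simp
    rw [h2] at h1
    have h3 : ∑ j ∈ Y, w j * bad j ≤ ∑ j ∈ X, w j * bad j :=
      Finset.sum_le_sum_of_subset_of_nonneg (Finset.filter_subset _ _)
        fun j _ _ => mul_nonneg (hw j) (hbad0 j)
    have h4 : ∑ j ∈ Y, w j * (ε / 4) ≤ ∑ j ∈ Y, w j * bad j :=
      Finset.sum_le_sum fun j hj => mul_le_mul_of_nonneg_left (hc j hj) (hw j)
    rw [← Finset.sum_mul] at h4
    have h5 := ht2 i₀
    nlinarith
  obtain ⟨j₀, hj₀, hb⟩ := hj
  have hj₀X : j₀ ∈ X := (Finset.mem_filter.1 hj₀).1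
  have hHij : t i₀ ≤ H i₀ j₀ := (Finset.mem_filter.1 hj₀).2
  have hAB : (C i₀ ∩ C j₀).Nonempty := by
    by_contra h0
    rw [Set.not_nonempty_iff_eq_empty] at h0
    have : bad j₀ = ∑ k ∈ X, w k := by
      rw [hbad]
      refine Finset.sum_congr rfl fun k _ => ?_
      rw [h0, Set.empty_inter, if_neg Set.not_nonempty_empty]
    rw [this] at hb
    linarith
  have hcompAB : IsCompact (C i₀ ∩ C j₀) := (hcomp i₀ hi₀).inter (hcomp j₀ hj₀X)
  obtain ⟨p, hp, hpd⟩ := hcompAB.exists_infDist_eq_dist hAB 0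
  have hnear : ∀ z ∈ C i₀ ∩ C j₀, ‖p‖ ≤ ‖z‖ := by
    intro z hz
    have h1 := Metric.infDist_le_dist_of_mem (x := (0 : ℂ)) hz
    rw [hpd, dist_zero_left, dist_zero_left] at h1
    exact h1
  have hpH : H i₀ j₀ = ‖p‖ := by
    rw [hH]
    simp only
    rw [hpd, dist_zero_left]
  refine ⟨p, ?_⟩
  have hsub : X.filter (fun k => p ∉ C k) ⊆ (X.filter (fun k => t i₀ < H i₀ k) ∪
      X.filter (fun k => t j₀ < H j₀ k)) ∪
        X.filter (fun k => ¬ (C i₀ ∩ C j₀ ∩ C k).Nonempty) := by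
    intro k hk
    rw [Finset.mem_filter] at hk
    obtain ⟨hkX, hpk⟩ := hk
    by_contra hc
    simp only [Finset.mem_union, Finset.mem_filter, hkX, true_and, not_or, not_lt, not_not] at hc
    obtain ⟨⟨h1, h2⟩, h3⟩ := hc
    apply hpk
    have key : ∀ i ∈ X, (C i ∩ C k).Nonempty → H i k ≤ ‖p‖ → ∃ z ∈ C i ∩ C k, ‖z‖ ≤ ‖p‖ := by
      intro i hi hne' hle
      obtain ⟨z, hz, hzd⟩ := ((hcomp i hi).inter (hcomp k hkX)).exists_infDist_eq_dist hne' 0
      refine ⟨z, hz, ?_⟩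
      rw [hH] at hle
      simp only at hle
      rw [hzd, dist_zero_left] at hle
      exact hle
    refine mem_of_nearest (hconv i₀ hi₀) (hconv j₀ hj₀X) (hconv k hkX) hp.1 hp.2 hnear h3 ?_ ?_
    · refine key i₀ hi₀ (h3.mono fun z hz => ⟨hz.1.1, hz.2⟩) ?_
      rw [← hpH]
      exact h1.trans hHij
    · refine key j₀ hj₀X (h3.mono fun z hz => ⟨hz.1.2, hz.2⟩) ?_
      rw [← hpH]
      exact h2.trans ((hmax j₀ hj₀X).trans hHij)
  have hbad' : ∑ k ∈ X with ¬ (C i₀ ∩ C j₀ ∩ C k).Nonempty, w k = bad j₀ := by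
    rw [hbad, Finset.sum_filter]
    refine Finset.sum_congr rfl fun k _ => ?_
    by_cases h0 : (C i₀ ∩ C j₀ ∩ C k).Nonempty
    · simp [h0]
    · simp [h0]
  calc ∑ i ∈ X with p ∉ C i, w i
      ≤ ∑ i ∈ (X.filter (fun k => t i₀ < H i₀ k) ∪ X.filter (fun k => t j₀ < H j₀ k)) ∪
        X.filter (fun k => ¬ (C i₀ ∩ C j₀ ∩ C k).Nonempty), w i :=
        Finset.sum_le_sum_of_subset_of_nonneg hsub fun i _ _ => hw i
    _ ≤ (∑ i ∈ X.filter (fun k => t i₀ < H i₀ k), w i +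
          ∑ i ∈ X.filter (fun k => t j₀ < H j₀ k), w i) +
        ∑ i ∈ X.filter (fun k => ¬ (C i₀ ∩ C j₀ ∩ C k).Nonempty), w i := by
        have hu : ∀ s t : Finset ι, ∑ i ∈ s ∪ t, w i ≤ ∑ i ∈ s, w i + ∑ i ∈ t, w i := by
          intro s t
          rw [← Finset.sum_union_inter]
          have : 0 ≤ ∑ i ∈ s ∩ t, w i := Finset.sum_nonneg fun i _ => hw i
          linarith
        refine (hu _ _).trans ?_
        have := hu (X.filter (fun k => t i₀ < H i₀ k)) (X.filter (fun k => t j₀ < H j₀ k))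
        linarith
    _ ≤ ε := by
        have h1 := ht1 i₀
        have h2 := ht1 j₀
        rw [hbad']
        linarith

end Pool.Agent.Helper32.Pierce
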